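import Pool.Agent.Helper84.FX.StT

/-!
# Project FX, module CPR: parametrisation of a cell by a standard cube
-/

set_option autoImplicit false

namespace Pool.Agent.Helper25.FX

open Pool.Agent.Helper84.FX Set

theorem hCPR : StCPR := by
  intro d c
  classical
  refine ⟨fun u i => if h : i ∈ c.2 then (c.1 i : ℝ) + u (c.2.equivFin ⟨i, h⟩) else (c.1 i : ℝ),
    fun v j => v (c.2.equivFin.symm j) - (c.1 (c.2.equivFin.symm j) : ℝ), ?_, ?_, ?_, ?_, ?_, ?_, ?_⟩
  · refine continuous_pi fun i => ?_
    by_cases h : i ∈ c.2
    · simp only [h, dif_pos]
      exact continuous_const.add (continuous_apply _)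
    · simp only [h, dif_neg, not_false_iff]
      exact continuous_const
  · exact continuous_pi fun j => (continuous_apply _).sub continuous_const
  · intro u
    funext j
    have hj : ((c.2.equivFin.symm j : c.2) : Fin d) ∈ c.2 := (c.2.equivFin.symm j).2
    simp only [hj, dif_pos, Subtype.coe_eta, Equiv.apply_symm_apply]
    ring
  · intro u hu i
    constructor
    · intro h
      simp only [h, dif_pos]
      have := hu (c.2.equivFin ⟨i, h⟩)
      constructor <;> linarith [this.1, this.2]
    · intro h
      simp only [h, dif_neg, not_false_iff]
  · intro v hv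
    constructor
    · intro j
      have := (hv (c.2.equivFin.symm j)).1 (c.2.equivFin.symm j).2
      constructor <;> linarith [this.1, this.2]
    · funext i
      by_cases h : i ∈ c.2
      · simp only [h, dif_pos, Equiv.symm_apply_apply]
        ring
      · simp only [h, dif_neg, not_false_iff]
        exact ((hv i).2 h).symm
  · intro v hv
    obtain ⟨hv, i, hi, hvi⟩ := hv
    refine ⟨?_, c.2.equivFin ⟨i, hi⟩, ?_⟩
    · intro j
      have := (hv (c.2.equivFin.symm j)).1 (c.2.equivFin.symm j).2
      constructor <;> linarith [this.1, this.2]
    · simp only [Equiv.symm_apply_apply]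
      rcases hvi with hvi | hvi
      · left; linarith
      · right; linarith
  · intro u hu
    obtain ⟨hu, j, huj⟩ := hu
    refine ⟨?_, (c.2.equivFin.symm j : c.2), (c.2.equivFin.symm j).2, ?_⟩
    · intro i
      constructor
      · intro h
        simp only [h, dif_pos]
        have := hu (c.2.equivFin ⟨i, h⟩)
        constructor <;> linarith [this.1, this.2]
      · intro h
        simp only [h, dif_neg, not_false_iff]
    · have hj : ((c.2.equivFin.symm j : c.2) : Fin d) ∈ c.2 := (c.2.equivFin.symm j).2
      simp only [hj, dif_pos, Subtype.coe_eta, Equiv.apply_symm_apply]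
      rcases huj with huj | huj
      · left; linarith
      · right; linarith

end Pool.Agent.Helper25.FX
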