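import Pool.Agent.Helper41.FX.StK2

/-! FX module PER: permutation of regular elements. -/

set_option autoImplicit false

namespace Pool.Agent.Helper25.FX

open Pool.Agent.Helper41.FX

theorem hPER : StPER := by
  intro A _ I x f hx hf r hr
  obtain ⟨z, hz, u, hu, hzu⟩ := Submodule.mem_sup.1 hr
  obtain ⟨y, rfl⟩ := Ideal.mem_span_singleton'.1 hu
  have h1 : f * y ∈ I ⊔ Ideal.span {x} := by
    have h2 : f * y = -z + r * x := by linear_combination hzu
    rw [h2]
    exact Submodule.add_mem_sup (I.neg_mem hz)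
      (Ideal.mul_mem_left _ r (Ideal.mem_span_singleton_self x))
  obtain ⟨w, hw, v, hv, hwv⟩ := Submodule.mem_sup.1 (hf y h1)
  obtain ⟨y', rfl⟩ := Ideal.mem_span_singleton'.1 hv
  have h3 : x * (r - y' * f) ∈ I := by
    have h4 : x * (r - y' * f) = z + w * f := by
      linear_combination (-1 : A) * hzu - f * hwv
    rw [h4]
    exact I.add_mem hz (Ideal.mul_mem_right f I hw)
  have h5 := hx _ h3
  have h6 : r = (r - y' * f) + y' * f := by ring
  rw [h6]
  exact Submodule.add_mem_sup h5 (Ideal.mul_mem_left _ y' (Ideal.mem_span_singleton_self f))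

end Pool.Agent.Helper25.FX
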