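import Pool.Agent.Helper65.FX.St

/-!
# Project FX, module SLV: solver near a compact set of parameters
-/

set_option autoImplicit false

namespace Pool.Agent.Helper25.FX

open Set Topology Metric Filter
open Pool.Agent.Helper65.FX Pool.Agent.Helper87.FX

theorem hSLV : StUCT → StSLV := by
  intro hU T E _ _ _ _ K Ψ hK hc hd hD h0 hn
  have hWo : IsOpen {z : T × E | ‖fderiv ℝ (Ψ z.1) z.2 - ContinuousLinearMap.id ℝ E‖ < 1 / 2} :=
    isOpen_lt ((hD.sub continuous_const).norm) continuous_const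
  have hsub : K ×ˢ ({0} : Set E) ⊆
      {z : T × E | ‖fderiv ℝ (Ψ z.1) z.2 - ContinuousLinearMap.id ℝ E‖ < 1 / 2} := by
    rintro ⟨t, u⟩ ⟨ht, hu⟩
    have hu' : u = 0 := hu
    subst hu'
    exact hn t ht
  obtain ⟨O₁, V, hO₁, hV, hKO, h0V, hOV⟩ := generalized_tube_lemma hK isCompact_singleton hWo hsub
  obtain ⟨ε, hε, hball⟩ : ∃ ε > 0, closedBall (0 : E) ε ⊆ V :=
    Metric.nhds_basis_closedBall.mem_iff.1 (hV.mem_nhds (h0V rfl))
  have hΨu : ∀ u : E, Continuous (fun t => Ψ t u) := fun u =>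
    hc.comp (Continuous.prodMk continuous_id continuous_const)
  have hO : IsOpen (O₁ ∩ {t | ‖Ψ t 0‖ < ε / 2}) :=
    hO₁.inter (isOpen_lt (hΨu 0).norm continuous_const)
  have hKO' : K ⊆ O₁ ∩ {t | ‖Ψ t 0‖ < ε / 2} := fun t ht => ⟨hKO ht, by
    show ‖Ψ t 0‖ < ε / 2
    rw [h0 t ht, norm_zero]
    linarith⟩
  have hlip : ∀ t ∈ O₁ ∩ {t | ‖Ψ t 0‖ < ε / 2}, ∀ u ∈ closedBall (0 : E) ε,
      ∀ u' ∈ closedBall (0 : E) ε, ‖Ψ t u - Ψ t u' - (u - u')‖ ≤ ‖u - u'‖ / 2 := by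
    intro t ht u hu u' hu'
    have hder : ∀ x ∈ closedBall (0 : E) ε, HasFDerivWithinAt (fun v => Ψ t v - v)
        (fderiv ℝ (Ψ t) x - ContinuousLinearMap.id ℝ E) (closedBall 0 ε) x := fun x _ =>
      ((hd t x).hasFDerivAt.sub (hasFDerivAt_id x)).hasFDerivWithinAt
    have hb : ∀ x ∈ closedBall (0 : E) ε,
        ‖fderiv ℝ (Ψ t) x - ContinuousLinearMap.id ℝ E‖ ≤ 1 / 2 := fun x hx =>
      le_of_lt (hOV (mk_mem_prod ht.1 (hball hx)))
    have h := Convex.norm_image_sub_le_of_norm_hasFDerivWithin_le hder hb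
      (convex_closedBall (0 : E) ε) hu' hu
    have he : Ψ t u - Ψ t u' - (u - u') = (Ψ t u - u) - (Ψ t u' - u') := by abel
    rw [he]
    calc ‖Ψ t u - u - (Ψ t u' - u')‖ ≤ 1 / 2 * ‖u - u'‖ := h
      _ = ‖u - u'‖ / 2 := by ring
  obtain ⟨s, hs, hsol, huniq⟩ := hU T E (O₁ ∩ {t | ‖Ψ t 0‖ < ε / 2}) Ψ ε hε
    (fun u _ => (hΨu u).continuousOn) hlip (fun t ht => le_of_lt ht.2)
  refine ⟨O₁ ∩ {t | ‖Ψ t 0‖ < ε / 2}, s, hO, hKO', hs, fun t ht => (hsol t ht).2, ?_⟩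
  intro t ht
  exact (huniq t (hKO' ht) 0 (mem_closedBall_self hε.le) (h0 t ht)).symm

end Pool.Agent.Helper25.FX
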