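import Pool.Agent.Helper84.FX.StX

/-! FX module TNS: tameness of `σ` on the parts `ρ ≠ 0` of `N1`, `N2`, `N1 ∩ N2`. -/

set_option autoImplicit false

namespace Pool.Agent.Helper25.FX

open Pool.Agent.Helper84.FX Pool.Agent.Helper72.FX

open Set

noncomputable section

private abbrev E10 : Type := Fin 10 → ℂ

private abbrev pj (i : Fin 10) : E10 →L[ℝ] ℂ := ContinuousLinearMap.proj i

private theorem tns_pj (i : Fin 10) (z : E10) : HasFDerivAt (fun y : E10 => y i) (pj i) z :=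
  (pj i).hasFDerivAt

/-- the derivative of `ν` -/
private def dnu (z : E10) : E10 →L[ℝ] ℂ :=
  (2 : ℂ) • pj 1 + (z 2 • ((2 * z 1) • pj 1) + z 1 ^ 2 • pj 2) - (2 * z 0) • pj 0

private theorem tns_dnu (z : E10) :
    HasFDerivAt (fun y : E10 => nu (y 0) (y 1) (y 2)) (dnu z) z := by
  have h0 := (tns_pj 0 z).pow 2
  have h1 := (tns_pj 1 z).pow 2
  have h2 := (tns_pj 2 z).mul h1
  have h3 := (((tns_pj 1 z).const_mul (2 : ℂ)).add h2).sub h0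
  refine h3.congr_fderiv ?_
  ext v
  simp [dnu]

private theorem tns_dnu_apply (z v : E10) :
    dnu z v = 2 * (1 + z 2 * z 1) * v 1 + z 1 ^ 2 * v 2 - 2 * z 0 * v 0 := by
  simp [dnu]
  ring

private theorem tns_om {U : Set ℂ} (hU : IsOpen U) : IsOpen {z : E10 | z 2 ∈ U ∧ z 3 ≠ 0} := by
  have h1 : IsOpen {z : E10 | z 2 ∈ U} := hU.preimage (continuous_apply 2)
  have h2 : IsOpen {z : E10 | z 3 ≠ 0} :=
    isOpen_ne_fun (continuous_apply 3) continuous_const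
  exact h1.inter h2

/-- solving the last equation by the directions `a`, `b` -/
private theorem tns_ab (hGR : StGR) (z : E10) (ht : z 2 ≠ 0) (hn : nu (z 0) (z 1) (z 2) = 0)
    (γ : ℂ) : ∃ p q : ℂ, 2 * (1 + z 2 * z 1) * q - 2 * z 0 * p = γ := by
  by_cases ha : z 0 = 0
  · have hb : 1 + z 2 * z 1 ≠ 0 := fun hb => hGR.1 (z 0) (z 1) (z 2) ht ha hb hn
    refine ⟨0, γ / (2 * (1 + z 2 * z 1)), ?_⟩
    field_simp
    ring
  · refine ⟨-(γ / (2 * z 0)), 0, ?_⟩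
    field_simp
    ring

private def e1 (y : E10) : ℂ × ℂ × ℂ × ℂ × ℂ :=
  (y 4, y 7, y 8, y 9, nu (y 0) (y 1) (y 2) - y 5 * y 6)

private def e2 (y : E10) : ℂ × ℂ × ℂ × ℂ × ℂ :=
  (y 6, y 7, y 8, y 9, nu (y 0) (y 1) (y 2) - y 3 * y 4)

private def e3 (y : E10) : ℂ × ℂ × ℂ × ℂ × ℂ × ℂ :=
  (y 4, y 6, y 7, y 8, y 9, nu (y 0) (y 1) (y 2))

private theorem tns_c (i : Fin 10) : ContDiff ℝ 1 (fun y : E10 => y i) := (pj i).contDiff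

private theorem tns_cn : ContDiff ℝ 1 (fun y : E10 => nu (y 0) (y 1) (y 2)) :=
  ((contDiff_const.mul (tns_c 1)).add ((tns_c 2).mul ((tns_c 1).pow 2))).sub ((tns_c 0).pow 2)

private theorem tns_n1 (hT : StTMC) (hGR : StGR) (U : Set ℂ) (hU : IsOpen U) (h0 : (0 : ℂ) ∉ U) :
    Tame {z | z ∈ N1 U ∧ z 3 ≠ 0} (fun z => z 5) := by
  have key := hT E10 ℂ (ℂ × ℂ × ℂ × ℂ × ℂ) {z : E10 | z 2 ∈ U ∧ z 3 ≠ 0} e1 (fun z => z 5)
    (tns_om hU)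
    (((tns_c 4).prodMk ((tns_c 7).prodMk ((tns_c 8).prodMk ((tns_c 9).prodMk
      (tns_cn.sub ((tns_c 5).mul (tns_c 6))))))).contDiffOn)
    ((tns_c 5).contDiffOn) ?_
  · have hs : {z : E10 | z ∈ N1 U ∧ z 3 ≠ 0} = {x | x ∈ {z : E10 | z 2 ∈ U ∧ z 3 ≠ 0} ∧ e1 x = 0} := by
      refine Set.ext fun z => ⟨?_, ?_⟩
      · rintro ⟨⟨h2, h4, h7, h8, h9, hn⟩, h3⟩
        refine ⟨⟨h2, h3⟩, ?_⟩
        have hn' : nu (z 0) (z 1) (z 2) = z 5 * z 6 := hn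
        simp only [e1, h4, h7, h8, h9, hn', sub_self]
        rfl
      · rintro ⟨⟨h2, h3⟩, he⟩
        simp only [e1, Prod.mk_eq_zero, sub_eq_zero] at he
        exact ⟨⟨h2, he.1, he.2.1, he.2.2.1, he.2.2.2.1, he.2.2.2.2⟩, h3⟩
    rw [hs]
    exact key
  · rintro z ⟨hz, h3⟩ he hg
    have hd := (((tns_pj 4 z).prodMk ((tns_pj 7 z).prodMk ((tns_pj 8 z).prodMk
      ((tns_pj 9 z).prodMk ((tns_dnu z).sub ((tns_pj 5 z).mul (tns_pj 6 z)))))))).prodMk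
      (tns_pj 5 z)
    have hd' : fderiv ℝ (fun y : E10 => (e1 y, y 5)) z = _ := hd.fderiv
    rw [hd']
    simp only [e1, Prod.mk_eq_zero] at he
    have hg' : z 5 = 0 := hg
    have hn : nu (z 0) (z 1) (z 2) = 0 := by
      have := he.2.2.2.2
      rw [hg', zero_mul, sub_zero] at this
      exact this
    have ht : z 2 ≠ 0 := fun h => h0 (h ▸ hz)
    rintro ⟨⟨a4, a7, a8, a9, c⟩, b⟩
    obtain ⟨p, q, hpq⟩ := tns_ab hGR z ht hn (c + z 6 * b)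
    refine ⟨![p, q, 0, 0, a4, b, 0, a7, a8, a9], ?_⟩
    have hv : dnu z ![p, q, 0, 0, a4, b, 0, a7, a8, a9] = c + z 6 * b := by
      rw [tns_dnu_apply, ← hpq]
      simp
    simp [hv, hg']

private theorem tns_n2 (hT : StTMC) (U : Set ℂ) (hU : IsOpen U) :
    Tame {z | z ∈ N2 U ∧ z 3 ≠ 0} (fun z => z 5) := by
  have key := hT E10 ℂ (ℂ × ℂ × ℂ × ℂ × ℂ) {z : E10 | z 2 ∈ U ∧ z 3 ≠ 0} e2 (fun z => z 5)
    (tns_om hU)
    (((tns_c 6).prodMk ((tns_c 7).prodMk ((tns_c 8).prodMk ((tns_c 9).prodMk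
      (tns_cn.sub ((tns_c 3).mul (tns_c 4))))))).contDiffOn)
    ((tns_c 5).contDiffOn) ?_
  · have hs : {z : E10 | z ∈ N2 U ∧ z 3 ≠ 0} = {x | x ∈ {z : E10 | z 2 ∈ U ∧ z 3 ≠ 0} ∧ e2 x = 0} := by
      refine Set.ext fun z => ⟨?_, ?_⟩
      · rintro ⟨⟨h2, h6, h7, h8, h9, hn⟩, h3⟩
        refine ⟨⟨h2, h3⟩, ?_⟩
        have hn' : nu (z 0) (z 1) (z 2) = z 3 * z 4 := hn
        simp only [e2, h6, h7, h8, h9, hn', sub_self]
        rfl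
      · rintro ⟨⟨h2, h3⟩, he⟩
        simp only [e2, Prod.mk_eq_zero, sub_eq_zero] at he
        exact ⟨⟨h2, he.1, he.2.1, he.2.2.1, he.2.2.2.1, he.2.2.2.2⟩, h3⟩
    rw [hs]
    exact key
  · rintro z ⟨hz, h3⟩ he hg
    have hd := (((tns_pj 6 z).prodMk ((tns_pj 7 z).prodMk ((tns_pj 8 z).prodMk
      ((tns_pj 9 z).prodMk ((tns_dnu z).sub ((tns_pj 3 z).mul (tns_pj 4 z)))))))).prodMk
      (tns_pj 5 z)
    have hd' : fderiv ℝ (fun y : E10 => (e2 y, y 5)) z = _ := hd.fderiv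
    rw [hd']
    have h3' : z 3 ≠ 0 := h3
    rintro ⟨⟨a6, a7, a8, a9, c⟩, b⟩
    refine ⟨![0, 0, 0, 0, -(c / z 3), b, a6, a7, a8, a9], ?_⟩
    have hv : dnu z ![0, 0, 0, 0, -(c / z 3), b, a6, a7, a8, a9] = 0 := by
      rw [tns_dnu_apply]
      simp
    simp [hv]
    field_simp

private theorem tns_n3 (hT : StTMC) (hGR : StGR) (U : Set ℂ) (hU : IsOpen U) (h0 : (0 : ℂ) ∉ U) :
    Tame ({z | z ∈ N1 U ∧ z 3 ≠ 0} ∩ {z | z ∈ N2 U ∧ z 3 ≠ 0}) (fun z => z 5) := by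
  have key := hT E10 ℂ (ℂ × ℂ × ℂ × ℂ × ℂ × ℂ) {z : E10 | z 2 ∈ U ∧ z 3 ≠ 0} e3 (fun z => z 5)
    (tns_om hU)
    (((tns_c 4).prodMk ((tns_c 6).prodMk ((tns_c 7).prodMk ((tns_c 8).prodMk ((tns_c 9).prodMk
      tns_cn))))).contDiffOn)
    ((tns_c 5).contDiffOn) ?_
  · have hs : ({z : E10 | z ∈ N1 U ∧ z 3 ≠ 0} ∩ {z : E10 | z ∈ N2 U ∧ z 3 ≠ 0}) =
        {x | x ∈ {z : E10 | z 2 ∈ U ∧ z 3 ≠ 0} ∧ e3 x = 0} := by
      refine Set.ext fun z => ⟨?_, ?_⟩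
      · rintro ⟨⟨⟨h2, h4, h7, h8, h9, hn⟩, h3⟩, ⟨-, h6, -⟩, -⟩
        refine ⟨⟨h2, h3⟩, ?_⟩
        have hn' : nu (z 0) (z 1) (z 2) = 0 := by
          have : nu (z 0) (z 1) (z 2) = z 5 * z 6 := hn
          rw [this, h6, mul_zero]
        simp only [e3, h4, h6, h7, h8, h9, hn']
        rfl
      · rintro ⟨⟨h2, h3⟩, he⟩
        simp only [e3, Prod.mk_eq_zero] at he
        obtain ⟨h4, h6, h7, h8, h9, hn⟩ := he
        refine ⟨⟨⟨h2, h4, h7, h8, h9, ?_⟩, h3⟩, ⟨h2, h6, h7, h8, h9, ?_⟩, h3⟩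
        · show nu (z 0) (z 1) (z 2) = z 5 * z 6
          rw [hn, h6, mul_zero]
        · show nu (z 0) (z 1) (z 2) = z 3 * z 4
          rw [hn, h4, mul_zero]
    rw [hs]
    exact key
  · rintro z ⟨hz, h3⟩ he hg
    have hd := (((tns_pj 4 z).prodMk ((tns_pj 6 z).prodMk ((tns_pj 7 z).prodMk
      ((tns_pj 8 z).prodMk ((tns_pj 9 z).prodMk (tns_dnu z))))))).prodMk (tns_pj 5 z)
    have hd' : fderiv ℝ (fun y : E10 => (e3 y, y 5)) z = _ := hd.fderiv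
    rw [hd']
    simp only [e3, Prod.mk_eq_zero] at he
    have hn : nu (z 0) (z 1) (z 2) = 0 := he.2.2.2.2.2
    have ht : z 2 ≠ 0 := fun h => h0 (h ▸ hz)
    rintro ⟨⟨a4, a6, a7, a8, a9, c⟩, b⟩
    obtain ⟨p, q, hpq⟩ := tns_ab hGR z ht hn c
    refine ⟨![p, q, 0, 0, a4, b, a6, a7, a8, a9], ?_⟩
    have hv : dnu z ![p, q, 0, 0, a4, b, a6, a7, a8, a9] = c := by
      rw [tns_dnu_apply, ← hpq]
      simp
    simp [hv]

theorem hTNS : StTMC → StGR → StTNS := fun hT hGR U hU h0 =>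
  ⟨tns_n1 hT hGR U hU h0, tns_n2 hT U hU, tns_n3 hT hGR U hU h0⟩

end

end Pool.Agent.Helper25.FX
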